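import Pool.Agent.H81.LE.StmThree

/-!
# Project LE: light edges, version with local lists
-/

set_option autoImplicit false
set_option linter.unusedSectionVars false
set_option linter.unusedVariables false

namespace Pool.Agent.H93.LE

open Pool.Agent.H81.LE

variable {V : Type}

/-- the colours which are blocked for the edge `a b` -/
def blk (G : SimpleGraph V) (f : Sym2 V → ℕ) (a b : V) : Set ℕ :=
  ((fun w => f s(a, w)) '' ((G.neighborSet a) \ {b})) ∪
    ((fun w => f s(b, w)) '' ((G.neighborSet b) \ {a}))

theorem blk_card [Fintype V] (G : SimpleGraph V) (f : Sym2 V → ℕ) {a b : V} (hab : G.Adj a b) :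
    (blk G f a b).ncard + 2 ≤ (G.neighborSet a).ncard + (G.neighborSet b).ncard := by
  have hu1 : ((G.neighborSet a) \ {b}).ncard = (G.neighborSet a).ncard - 1 :=
    Set.ncard_sdiff_singleton_of_mem hab
  have hv1 : ((G.neighborSet b) \ {a}).ncard = (G.neighborSet b).ncard - 1 :=
    Set.ncard_sdiff_singleton_of_mem hab.symm
  have hu0 : 0 < (G.neighborSet a).ncard := (Set.ncard_pos (Set.toFinite _)).2 ⟨b, hab⟩
  have hv0 : 0 < (G.neighborSet b).ncard := (Set.ncard_pos (Set.toFinite _)).2 ⟨a, hab.symm⟩
  have h2 := Set.ncard_union_le ((fun w => f s(a, w)) '' ((G.neighborSet a) \ {b}))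
    ((fun w => f s(b, w)) '' ((G.neighborSet b) \ {a}))
  have h3 := Set.ncard_image_le (f := fun w => f s(a, w))
    (Set.toFinite ((G.neighborSet a) \ {b}))
  have h4 := Set.ncard_image_le (f := fun w => f s(b, w))
    (Set.toFinite ((G.neighborSet b) \ {a}))
  unfold blk
  omega

/-- **Light edges.** -/
theorem t_lightL : S_lightL := by
  classical
  intro V _ G L ⟨f₀, hf1, hf2⟩
  have key : ∀ T : Finset (Sym2 V), ∃ f : Sym2 V → ℕ,
      (∀ e, e ∈ G.edgeSet → (e ∈ (heavyL G L).edgeSet ∨ e ∈ T) → f e ∈ L e) ∧
      ∀ u v w, G.Adj u v → G.Adj u w → v ≠ w → (s(u, v) ∈ (heavyL G L).edgeSet ∨ s(u, v) ∈ T) →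
        (s(u, w) ∈ (heavyL G L).edgeSet ∨ s(u, w) ∈ T) → f s(u, v) ≠ f s(u, w) := by
    intro T
    induction T using Finset.induction_on with
    | empty =>
      refine ⟨f₀, fun e _ he => hf1 e (he.resolve_right (Finset.notMem_empty _)),
        fun u v w _ _ hvw h1 h2 => hf2 u v w ?_ ?_ hvw⟩
      · exact h1.resolve_right (Finset.notMem_empty _)
      · exact h2.resolve_right (Finset.notMem_empty _)
    | insert e₀ T _ ih =>
      obtain ⟨f, h1, h2⟩ := ih
      by_cases hh : e₀ ∈ G.edgeSet ∧ e₀ ∉ (heavyL G L).edgeSet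
      · obtain ⟨hG, hH⟩ := hh
        induction e₀ using Sym2.ind with
        | _ a b =>
        have hab : G.Adj a b := hG
        have h3 := blk_card G f hab
        have h4 : (blk G f a b).ncard < ((L s(a, b) : Finset ℕ) : Set ℕ).ncard := by
          rw [Set.ncard_coe_finset]
          by_contra hcon
          exact hH (show (heavyL G L).Adj a b from ⟨hab, by omega⟩)
        have hfin : (blk G f a b).Finite :=
          ((Set.toFinite _).image _).union ((Set.toFinite _).image _)
        obtain ⟨c, hc, hc'⟩ := Set.exists_mem_notMem_of_ncard_lt_ncard h4 hfin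
        have h5 : ∀ e, e ≠ s(a, b) → (e ∈ (heavyL G L).edgeSet ∨ e ∈ insert s(a, b) T) →
            (e ∈ (heavyL G L).edgeSet ∨ e ∈ T) := by
          rintro e hne (h | h)
          · exact Or.inl h
          · exact Or.inr ((Finset.mem_insert.1 h).resolve_left hne)
        have h6 : ∀ u v w, G.Adj u w → v ≠ w → s(u, v) = s(a, b) → f s(u, w) ≠ c := by
          intro u v w huw hvw h heq
          rcases Sym2.eq_iff.1 h with ⟨rfl, rfl⟩ | ⟨rfl, rfl⟩
          · exact hc' (Or.inl ⟨w, ⟨huw, fun h' => hvw h'.symm⟩, heq⟩)
          · exact hc' (Or.inr ⟨w, ⟨huw, fun h' => hvw h'.symm⟩, heq⟩)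
        have h7 : ∀ u v w : V, v ≠ w → s(u, v) = s(a, b) → s(u, w) ≠ s(a, b) := by
          intro u v w hvw h h'
          exact hvw (Sym2.congr_right.1 (h.trans h'.symm))
        refine ⟨Function.update f s(a, b) c, fun e he he' => ?_,
          fun u v w huv huw hvw hv hw => ?_⟩
        · by_cases h : e = s(a, b)
          · rw [h, Function.update_self]
            exact hc
          · rw [Function.update_of_ne h]
            exact h1 e he (h5 e h he')
        · by_cases h : s(u, v) = s(a, b)
          · rw [Function.update_of_ne (h7 u v w hvw h), h, Function.update_self]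
            exact (h6 u v w huw hvw h).symm
          · by_cases h' : s(u, w) = s(a, b)
            · rw [Function.update_of_ne h, h', Function.update_self]
              exact h6 u w v huv hvw.symm h'
            · rw [Function.update_of_ne h, Function.update_of_ne h']
              exact h2 u v w huv huw hvw (h5 _ h hv) (h5 _ h' hw)
      · have h3 : ∀ e, e ∈ G.edgeSet → (e ∈ (heavyL G L).edgeSet ∨ e ∈ insert e₀ T) →
            (e ∈ (heavyL G L).edgeSet ∨ e ∈ T) := by
          rintro e he (h | h)
          · exact Or.inl h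
          · rcases Finset.mem_insert.1 h with rfl | h
            · left
              by_contra hcon
              exact hh ⟨he, hcon⟩
            · exact Or.inr h
        exact ⟨f, fun e he he' => h1 e he (h3 e he he'), fun u v w huv huw hvw hv hw =>
          h2 u v w huv huw hvw (h3 _ huv hv) (h3 _ huw hw)⟩
  obtain ⟨f, h1, h2⟩ := key Finset.univ
  exact ⟨f, fun e he => h1 e he (Or.inr (Finset.mem_univ e)), fun u v w huv huw hvw =>
    h2 u v w huv huw hvw (Or.inr (Finset.mem_univ _)) (Or.inr (Finset.mem_univ _))⟩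

end Pool.Agent.H93.LE
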