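import Pool.Agent.H81.LE.Stm

/-!
# Project LE: case 2 of the star lemma
-/

set_option autoImplicit false
set_option linter.unusedSectionVars false
set_option linter.unusedVariables false

namespace Pool.Agent.H93.LE

open Finset Pool.Agent.H81.LE

section

variable {V : Type} [DecidableEq V] (S : Finset V) (L T : V → Finset ℕ) (C : Finset ℕ) (D N : ℕ)

/-- the unpopular colours of `v` outside `C` -/
def rare (v : V) : Finset ℕ := (L v \ popular S L D) \ C

/-- the children with few unpopular colours -/
def St : Finset V := S.filter (fun v => 1000 * (rare S L C D v).card < 3 * D)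

/-- the other children -/
def Sl : Finset V := S.filter (fun v => ¬ 1000 * (rare S L C D v).card < 3 * D)

/-- the popular colours outside `C` -/
def VP : Finset ℕ := popular S L D \ C

/-- the unpopular colours in `C` -/
def KK : Finset ℕ := C ∩ (S.biUnion L \ popular S L D)

variable {S L T C D N}

theorem mem_rare {v : V} {c : ℕ} :
    c ∈ rare S L C D v ↔ (c ∈ L v ∧ c ∉ popular S L D) ∧ c ∉ C := by
  unfold rare
  rw [mem_sdiff, mem_sdiff]

theorem mem_popular {c : ℕ} : c ∈ popular S L D ↔
    c ∈ S.biUnion L ∧ 99 * D ≤ 100 * (S.filter (fun v => c ∈ L v)).card := by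
  unfold popular
  rw [mem_filter]

theorem deg_lt {c : ℕ} (h : c ∈ S.biUnion L) (hc : c ∉ popular S L D) :
    100 * (S.filter (fun v => c ∈ L v)).card < 99 * D := by
  by_contra h1
  exact hc (mem_popular.2 ⟨h, not_lt.1 h1⟩)

theorem St_card : (St S L C D).card + (Sl S L C D).card = S.card :=
  card_filter_add_card_filter_not _

/-- double counting -/
theorem count (A : Finset V) (P : Finset ℕ) :
    ∑ c ∈ P, (A.filter (fun v => c ∈ L v)).card = ∑ v ∈ A, (P.filter (fun c => c ∈ L v)).card :=
  sum_card_bipartiteAbove_eq_sum_card_bipartiteBelow fun c v => c ∈ L v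

theorem pop_card (hL : ∀ v ∈ S, (L v).card = D) (hD : 0 < D) :
    99 * (popular S L D).card ≤ 100 * S.card := by
  have h1 : ∑ c ∈ popular S L D, (99 * D) ≤
      ∑ c ∈ popular S L D, 100 * (S.filter (fun v => c ∈ L v)).card :=
    sum_le_sum fun c hc => (mem_popular.1 hc).2
  rw [sum_const, smul_eq_mul, ← mul_sum, count] at h1
  have h2 : ∑ v ∈ S, ((popular S L D).filter (fun c => c ∈ L v)).card ≤ ∑ v ∈ S, D := by
    refine sum_le_sum fun v hv => ?_
    rw [← hL v hv]
    exact card_le_card fun c hc => (mem_filter.1 hc).2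
  rw [sum_const, smul_eq_mul] at h2
  have h3 : D * (99 * (popular S L D).card) ≤ D * (100 * S.card) := by
    calc D * (99 * (popular S L D).card) = (popular S L D).card * (99 * D) := by ring
      _ ≤ _ := h1
      _ ≤ 100 * (S.card * D) := Nat.mul_le_mul_left _ h2
      _ = D * (100 * S.card) := by ring
  exact Nat.le_of_mul_le_mul_left h3 hD

/-- the list of a child -/
theorem list_le (v : V) : (L v).card ≤ (VP S L C D).card + (rare S L C D v).card + C.card := by
  have h : L v ⊆ (VP S L C D ∪ rare S L C D v) ∪ C := by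
    intro c hc
    rw [mem_union, mem_union, mem_rare, VP, mem_sdiff]
    by_cases h1 : c ∈ C
    · exact Or.inr h1
    · by_cases h2 : c ∈ popular S L D
      · exact Or.inl (Or.inl ⟨h2, h1⟩)
      · exact Or.inl (Or.inr ⟨⟨hc, h2⟩, h1⟩)
  refine (card_le_card h).trans ((card_union_le _ _).trans ?_)
  exact Nat.add_le_add_right (card_union_le _ _) _

/-- the popular colours which are missing from the list of a child -/
theorem miss_le (v : V) : (VP S L C D \ L v).card + (L v).card ≤
    (VP S L C D).card + (rare S L C D v).card + C.card := by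
  have h : L v ⊆ ((VP S L C D ∩ L v) ∪ rare S L C D v) ∪ C := by
    intro c hc
    rw [mem_union, mem_union, mem_rare, mem_inter, VP, mem_sdiff]
    by_cases h1 : c ∈ C
    · exact Or.inr h1
    · by_cases h2 : c ∈ popular S L D
      · exact Or.inl (Or.inl ⟨⟨h2, h1⟩, hc⟩)
      · exact Or.inl (Or.inr ⟨⟨hc, h2⟩, h1⟩)
  have h1 := (card_le_card h).trans ((card_union_le _ _).trans
    (Nat.add_le_add_right (card_union_le _ _) _))
  have h2 := card_sdiff_add_card_inter (VP S L C D) (L v)
  omega

theorem pop_K : (popular S L D).card + (KK S L C D).card ≤ (VP S L C D).card + C.card := by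
  have h1 := card_sdiff_add_card_inter (popular S L D) C
  have h2 : (popular S L D ∩ C).card + (KK S L C D).card ≤ C.card := by
    rw [← card_union_of_disjoint]
    · refine card_le_card fun c hc => ?_
      rcases mem_union.1 hc with h | h
      · exact (mem_inter.1 h).2
      · exact (mem_inter.1 h).1
    · rw [disjoint_left]
      intro c hc hc'
      exact (mem_sdiff.1 (mem_inter.1 hc').2).2 (mem_inter.1 hc).1
  unfold VP
  omega

/-- the pairs of the children with few unpopular colours -/
theorem mem_Fam {x : V × ℕ} : x ∈ Fam S L D (St S L C D) (KK S L C D) ↔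
    x.1 ∈ St S L C D ∧ x.2 ∈ rare S L C D x.1 := by
  unfold Fam
  rw [mem_filter, mem_product, mem_rare]
  constructor
  · rintro ⟨⟨h1, h2⟩, h3, h4, h5⟩
    refine ⟨h1, ⟨h3, h4⟩, fun h6 => h5 ?_⟩
    exact mem_inter.2 ⟨h6, mem_sdiff.2 ⟨h2, h4⟩⟩
  · rintro ⟨h1, ⟨h3, h4⟩, h5⟩
    refine ⟨⟨h1, ?_⟩, h3, h4, fun h6 => h5 (mem_inter.1 h6).1⟩
    exact mem_biUnion.2 ⟨x.1, (mem_filter.1 h1).1, h3⟩

theorem Fam_card : (Fam S L D (St S L C D) (KK S L C D)).card =
    ∑ v ∈ St S L C D, (rare S L C D v).card := by
  have h : Fam S L D (St S L C D) (KK S L C D) =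
      (St S L C D).biUnion fun v => (rare S L C D v).image fun c => (v, c) := by
    ext x
    rw [mem_Fam, mem_biUnion]
    constructor
    · rintro ⟨h1, h2⟩
      exact ⟨x.1, h1, mem_image.2 ⟨x.2, h2, rfl⟩⟩
    · rintro ⟨v, hv, hx⟩
      obtain ⟨c, hc, rfl⟩ := mem_image.1 hx
      exact ⟨hv, hc⟩
  rw [h, card_biUnion]
  · refine sum_congr rfl fun v _ => card_image_of_injective _ fun a b hab => ?_
    exact (Prod.mk.inj hab).2
  · intro v _ w _ hvw
    rw [Function.onFun, disjoint_left]
    intro x hx hx'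
    obtain ⟨c, _, rfl⟩ := mem_image.1 hx
    obtain ⟨c', _, h'⟩ := mem_image.1 hx'
    exact hvw (Prod.mk.inj h').1.symm

/-- the size of the family -/
theorem Fam_ge (hL : ∀ v ∈ S, (L v).card = D) : 100 * ((St S L C D).card * D) ≤
    100 * ((St S L C D).card * (popular S L D).card) + 99 * D * (KK S L C D).card +
      100 * (Fam S L D (St S L C D) (KK S L C D)).card := by
  rw [Fam_card]
  have h1 : (St S L C D).card * D ≤ ∑ c ∈ popular S L D,
      ((St S L C D).filter (fun v => c ∈ L v)).card + ∑ c ∈ KK S L C D,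
      ((St S L C D).filter (fun v => c ∈ L v)).card + ∑ v ∈ St S L C D, (rare S L C D v).card := by
    rw [count, count, ← sum_add_distrib, ← sum_add_distrib, ← smul_eq_mul, ← sum_const]
    refine sum_le_sum fun v hv => ?_
    have hv' := (mem_filter.1 hv).1
    have h : L v ⊆ (((popular S L D).filter (fun c => c ∈ L v)) ∪
        ((KK S L C D).filter (fun c => c ∈ L v))) ∪ rare S L C D v := by
      intro c hc
      rw [mem_union, mem_union, mem_filter, mem_filter, mem_rare]
      by_cases h2 : c ∈ popular S L D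
      · exact Or.inl (Or.inl ⟨h2, hc⟩)
      · by_cases h1 : c ∈ C
        · refine Or.inl (Or.inr ⟨mem_inter.2 ⟨h1, mem_sdiff.2 ⟨?_, h2⟩⟩, hc⟩)
          exact mem_biUnion.2 ⟨v, hv', hc⟩
        · exact Or.inr ⟨⟨hc, h2⟩, h1⟩
    have h0 := (card_le_card h).trans ((card_union_le _ _).trans
      (Nat.add_le_add_right (card_union_le _ _) _))
    rwa [hL v hv'] at h0
  have h2 : ∑ c ∈ popular S L D, ((St S L C D).filter (fun v => c ∈ L v)).card ≤
      (St S L C D).card * (popular S L D).card := by
    refine (sum_le_card_nsmul _ _ (St S L C D).card fun c _ => card_filter_le _ _).trans ?_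
    rw [smul_eq_mul, mul_comm]
  have h3 : 100 * ∑ c ∈ KK S L C D, ((St S L C D).filter (fun v => c ∈ L v)).card ≤
      99 * D * (KK S L C D).card := by
    rw [mul_sum]
    refine (sum_le_card_nsmul _ _ (99 * D) fun c hc => ?_).trans ?_
    · have h4 := mem_sdiff.1 (mem_inter.1 hc).2
      refine le_trans ?_ (deg_lt h4.1 h4.2).le
      refine Nat.mul_le_mul_left _ (card_le_card fun v hv => ?_)
      exact mem_filter.2 ⟨(mem_filter.1 (mem_filter.1 hv).1).1, (mem_filter.1 hv).2⟩
    · rw [smul_eq_mul, mul_comm]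
  omega

end

/-- arithmetic: the family is large -/
theorem arith1 {a l k κ P F D p v m : ℕ} (hF : 100 * (a * D) ≤ 100 * (a * P) + 99 * D * κ + 100 * F)
    (hPK : P + κ ≤ v + p) (hm : m + p ≤ D) (hal : a + l = m) (hk : m = l + k + v) (hk1 : 1 ≤ k)
    (ha : 995 * D ≤ 1000 * a) : D * (1 + l + κ) ≤ 200 * F ∧ a * k ≤ F := by
  have h1 : l + k + κ + P ≤ D := by omega
  have h2 : a * (l + k + κ + P) ≤ a * D := Nat.mul_le_mul_left _ h1
  have h3 : 100 * (a * (l + k + κ)) ≤ 99 * D * κ + 100 * F := by nlinarith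
  have h4 : 995 * D * κ ≤ 1000 * a * κ := Nat.mul_le_mul_right _ ha
  have h5 : 995 * D * (l + k) ≤ 1000 * a * (l + k) := Nat.mul_le_mul_right _ ha
  have h6 : D * 1 ≤ D * k := Nat.mul_le_mul_left _ hk1
  have h7 : 0 ≤ D * κ := Nat.zero_le _
  have h8 : 0 ≤ D * l := Nat.zero_le _
  have h9 : 0 ≤ a * l := Nat.zero_le _
  constructor
  · nlinarith
  · nlinarith

/-- arithmetic: enough pairs for the picks -/
theorem arith2 {a k F H B D N : ℕ} (hF : a * k ≤ F) (hB : 1000 * B ≤ F) (hFH : B + H = F)
    (ha : 995 * D ≤ 1000 * a) (hN : 100000000 * N ≤ D) :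
    k * (3 * D / 1000 + 99 * D / 100 + N) ≤ H := by
  have h1 : 1000 * (3 * D / 1000 + 99 * D / 100 + N) ≤ 994 * D := by omega
  have h2 : 1000 * (k * (3 * D / 1000 + 99 * D / 100 + N)) ≤ 994 * (D * k) := by
    calc 1000 * (k * (3 * D / 1000 + 99 * D / 100 + N)) =
        k * (1000 * (3 * D / 1000 + 99 * D / 100 + N)) := by ring
      _ ≤ k * (994 * D) := Nat.mul_le_mul_left _ h1
      _ = 994 * (D * k) := by ring
  have h3 : 995 * (D * k) ≤ 1000 * (a * k) := by
    calc 995 * (D * k) = (995 * D) * k := by ring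
      _ ≤ (1000 * a) * k := Nat.mul_le_mul_right _ ha
      _ = 1000 * (a * k) := by ring
  have h4 : 999 * F ≤ 1000 * H := by omega
  generalize D * k = Dk at *
  generalize a * k = ak at *
  generalize k * (3 * D / 1000 + 99 * D / 100 + N) = Z at *
  omega

/-- **Case 2 of the star lemma** -/
theorem t_case2 (h1 : S_comp) (h2 : S_greedy) (h3 : S_picks) (h4 : S_ncm) : S_case2 := by
  intro V _ S L T C D N hN hD hL hT hC hSC hDS hfew hgood
  have hD0 : 0 < D := by omega
  have hN0 : 0 < N := hN
  have hal := St_card (S := S) (L := L) (C := C) (D := D)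
  -- few children with many unpopular colours
  have hl : (Sl S L C D).card < D / 8000 := by
    refine lt_of_le_of_lt (card_le_card fun v hv => ?_) hfew
    have hv' := mem_filter.1 hv
    refine mem_filter.2 ⟨hv'.1, ?_⟩
    have h5 : ¬ 1000 * (rare S L C D v).card < 3 * D := hv'.2
    change D ≤ 1000 * (rare S L C D v).card
    omega
  -- a child with very few unpopular colours
  obtain ⟨v0, hv0, hv0r⟩ : ∃ v ∈ S, 1000 * (rare S L C D v).card < D := by
    by_contra hcon
    push Not at hcon
    have h5 : S.card ≤ (S.filter (fun v => D ≤ 1000 * ((L v \ popular S L D) \ C).card)).card :=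
      card_le_card fun v hv => mem_filter.2 ⟨hv, hcon v hv⟩
    omega
  have hpop := pop_card hL hD0
  have hVPpop : (VP S L C D).card ≤ (popular S L D).card := card_le_card sdiff_subset
  have hv0L := list_le (S := S) (L := L) (C := C) (D := D) v0
  rw [hL v0 hv0] at hv0L
  obtain ⟨k, hk⟩ : ∃ k, k = (S.card - (Sl S L C D).card) - (VP S L C D).card := ⟨_, rfl⟩
  have hkD : 1000 * k ≤ D := by omega
  have ha : 995 * D ≤ 1000 * (St S L C D).card := by omega
  -- step 1
  obtain ⟨F, hFdef⟩ : ∃ F, F = Fam S L D (St S L C D) (KK S L C D) := ⟨_, rfl⟩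
  have hmemF : ∀ x, x ∈ F ↔ x.1 ∈ St S L C D ∧ x.2 ∈ rare S L C D x.1 := fun x => by
    rw [hFdef]
    exact mem_Fam
  obtain ⟨H, hHdef⟩ : ∃ H, H = F.filter (fun x => ¬ x.2 ∈ T x.1) := ⟨_, rfl⟩
  have hHcard : k * (3 * D / 1000 + 99 * D / 100 + N) ≤ H.card := by
    rcases Nat.eq_zero_or_pos k with h0 | h0
    · rw [h0, zero_mul]
      exact Nat.zero_le _
    · have h5 := Fam_ge (S := S) (L := L) (C := C) (D := D) hL
      rw [← hFdef] at h5
      obtain ⟨h6, h7⟩ := arith1 (m := S.card) (p := C.card) (v := (VP S L C D).card)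
        (l := (Sl S L C D).card) (k := k) h5 pop_K hSC hal (by omega) h0 ha
      have hFfam : F ∈ family S L D := by
        unfold family
        refine mem_union_left _ (mem_image.2 ⟨(St S L C D, KK S L C D), mem_filter.2 ⟨?_, ?_⟩,
          hFdef.symm⟩)
        · rw [mem_product, mem_powerset, mem_powerset]
          exact ⟨filter_subset _ _, fun c hc => (mem_sdiff.1 (mem_inter.1 hc).2).1⟩
        · change D * (1 + (S \ St S L C D).card + (KK S L C D).card) ≤
            200 * (Fam S L D (St S L C D) (KK S L C D)).card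
          rw [← hFdef]
          have h8 : (S \ St S L C D).card = (Sl S L C D).card := by
            have h9 : St S L C D ⊆ S := filter_subset _ _
            rw [card_sdiff_of_subset h9]
            omega
          rw [h8]
          exact h6
      have hB := hgood F hFfam
      have hsplit : (F.filter (fun x => x.2 ∈ T x.1)).card + H.card = F.card := by
        rw [hHdef]
        exact card_filter_add_card_filter_not _
      exact arith2 h7 hB hsplit ha hD
  have hrow : ∀ v, (H.filter (fun x => x.1 = v)).card ≤ 3 * D / 1000 := by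
    intro v
    by_cases hv : v ∈ St S L C D
    · have h5 : (H.filter (fun x => x.1 = v)).card ≤ (rare S L C D v).card := by
        refine card_le_card_of_injOn Prod.snd (fun x hx => ?_) fun x hx y hy hxy => ?_
        · obtain ⟨h6, h7⟩ := mem_filter.1 (mem_coe.1 hx)
          rw [hHdef] at h6
          have h8 := (hmemF x).1 (mem_filter.1 h6).1
          rw [h7] at h8
          exact h8.2
        · exact Prod.ext ((mem_filter.1 (mem_coe.1 hx)).2.trans
            (mem_filter.1 (mem_coe.1 hy)).2.symm) hxy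
      have h6 : 1000 * (rare S L C D v).card < 3 * D := (mem_filter.1 hv).2
      omega
    · have h5 : H.filter (fun x => x.1 = v) = ∅ := by
        refine filter_eq_empty_iff.2 fun x hx h6 => hv ?_
        rw [hHdef] at hx
        rw [← h6]
        exact ((hmemF x).1 (mem_filter.1 hx).1).1
      rw [h5, card_empty]
      exact Nat.zero_le _
  have hcol : ∀ y, (H.filter (fun x => x.2 = y)).card ≤ 99 * D / 100 := by
    intro y
    rcases (H.filter (fun x => x.2 = y)).eq_empty_or_nonempty with h5 | ⟨z, hz⟩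
    · rw [h5, card_empty]
      exact Nat.zero_le _
    · have h5 : (H.filter (fun x => x.2 = y)).card ≤ (S.filter (fun v => y ∈ L v)).card := by
        refine card_le_card_of_injOn Prod.fst (fun x hx => ?_) fun x hx w hw hxw => ?_
        · obtain ⟨h6, h7⟩ := mem_filter.1 (mem_coe.1 hx)
          rw [hHdef] at h6
          have h8 := (hmemF x).1 (mem_filter.1 h6).1
          rw [h7] at h8
          exact mem_coe.2 (mem_filter.2 ⟨(mem_filter.1 h8.1).1, (mem_rare.1 h8.2).1.1⟩)
        · exact Prod.ext hxw ((mem_filter.1 (mem_coe.1 hx)).2.trans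
            (mem_filter.1 (mem_coe.1 hw)).2.symm)
      obtain ⟨h6, h7⟩ := mem_filter.1 hz
      rw [hHdef] at h6
      have h8 := (hmemF z).1 (mem_filter.1 h6).1
      rw [h7] at h8
      have h9 := mem_rare.1 h8.2
      have h10 := deg_lt (S := S) (L := L) (D := D)
        (mem_biUnion.2 ⟨z.1, (mem_filter.1 h8.1).1, h9.1.1⟩) h9.1.2
      omega
  have hP := h3 V H k (3 * D / 1000) (99 * D / 100) N hN0 hHcard hrow hcol
  -- the composition
  have hcomp := h1 (V × ℕ) (1 / (N : ℝ)) (2 / (N : ℝ)) _
    (fun M K => ∃ M2 M3 : Finset (V × ℕ),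
      IsStar (Sl S L C D) (fun v => (rare S L C D v \ T v) \ M.image Prod.snd) M2 ∧
      (∃ Y ⊆ VP S L C D, IsStar (St S L C D \ M.image Prod.fst)
        (fun v => ((L v \ C) \ T v) ∩ Y) M3) ∧ K = M2 ∪ M3) (by positivity) (by positivity) hP
    (fun M hM => ?_)
  · refine hcomp.mono (by positivity) (by rw [← add_div]; norm_num) ?_
    rintro _ ⟨M, K, ⟨hMH, -, hMr, hMc⟩, ⟨M2, M3, hM2, ⟨Y, hY, hM3⟩, rfl⟩, rfl⟩
    have hM1 : ∀ x ∈ M, (x.1 ∈ St S L C D ∧ x.2 ∈ rare S L C D x.1) ∧ x.2 ∉ T x.1 := by
      intro x hx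
      have h5 := hMH hx
      rw [hHdef] at h5
      exact ⟨(hmemF x).1 (mem_filter.1 h5).1, (mem_filter.1 h5).2⟩
    have hM2' : ∀ x ∈ M2, x.1 ∈ Sl S L C D ∧ (x.2 ∈ rare S L C D x.1 ∧ x.2 ∉ T x.1) ∧
        x.2 ∉ M.image Prod.snd := by
      intro x hx
      obtain ⟨h5, h6⟩ := hM2.mem x hx
      rw [mem_sdiff, mem_sdiff] at h6
      exact ⟨h5, h6⟩
    have hM3' : ∀ x ∈ M3, (x.1 ∈ St S L C D ∧ x.1 ∉ M.image Prod.fst) ∧
        ((x.2 ∈ L x.1 ∧ x.2 ∉ C) ∧ x.2 ∉ T x.1) ∧ x.2 ∈ popular S L D := by
      intro x hx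
      obtain ⟨h5, h6⟩ := hM3.mem x hx
      rw [mem_inter, mem_sdiff, mem_sdiff] at h6
      exact ⟨mem_sdiff.1 h5, h6.1, (mem_sdiff.1 (hY h6.2)).1⟩
    have hlt : ∀ v, v ∈ St S L C D → v ∈ Sl S L C D → False := fun v h5 h6 =>
      (mem_filter.1 h6).2 (mem_filter.1 h5).2
    -- rows
    have r12 : ∀ x ∈ M, ∀ y ∈ M2, x.1 ≠ y.1 := fun x hx y hy h5 =>
      hlt x.1 (hM1 x hx).1.1 (h5 ▸ (hM2' y hy).1)
    have r13 : ∀ x ∈ M, ∀ y ∈ M3, x.1 ≠ y.1 := fun x hx y hy h5 =>
      (hM3' y hy).1.2 (mem_image.2 ⟨x, hx, h5⟩)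
    have r23 : ∀ x ∈ M2, ∀ y ∈ M3, x.1 ≠ y.1 := fun x hx y hy h5 =>
      hlt x.1 (h5 ▸ (hM3' y hy).1.1) (hM2' x hx).1
    -- columns
    have c12 : ∀ x ∈ M, ∀ y ∈ M2, x.2 ≠ y.2 := fun x hx y hy h5 =>
      (hM2' y hy).2.2 (mem_image.2 ⟨x, hx, h5⟩)
    have c13 : ∀ x ∈ M, ∀ y ∈ M3, x.2 ≠ y.2 := fun x hx y hy h5 =>
      (mem_rare.1 (hM1 x hx).1.2).1.2 (h5 ▸ (hM3' y hy).2.2)
    have c23 : ∀ x ∈ M2, ∀ y ∈ M3, x.2 ≠ y.2 := fun x hx y hy h5 =>
      (mem_rare.1 (hM2' x hx).2.1.1).1.2 (h5 ▸ (hM3' y hy).2.2)
    refine ⟨fun x hx => ?_, fun v hv => ?_, fun x hx y hy hxy => ?_, fun x hx y hy hxy => ?_⟩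
    · rw [mem_sdiff, mem_sdiff]
      rcases mem_union.1 hx with hx | hx
      · obtain ⟨⟨h5, h6⟩, h7⟩ := hM1 x hx
        exact ⟨(mem_filter.1 h5).1, ⟨(mem_rare.1 h6).1.1, (mem_rare.1 h6).2⟩, h7⟩
      · rcases mem_union.1 hx with hx | hx
        · obtain ⟨h5, ⟨h6, h7⟩, h8⟩ := hM2' x hx
          exact ⟨(mem_filter.1 h5).1, ⟨(mem_rare.1 h6).1.1, (mem_rare.1 h6).2⟩, h7⟩
        · obtain ⟨⟨h5, h6⟩, h7, h8⟩ := hM3' x hx
          exact ⟨(mem_filter.1 h5).1, h7⟩
    · by_cases h5 : 1000 * (rare S L C D v).card < 3 * D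
      · have h6 : v ∈ St S L C D := mem_filter.2 ⟨hv, h5⟩
        by_cases h7 : v ∈ M.image Prod.fst
        · obtain ⟨x, hx, rfl⟩ := mem_image.1 h7
          exact ⟨x.2, mem_union_left _ hx⟩
        · obtain ⟨c, hc⟩ := hM3.cover v (mem_sdiff.2 ⟨h6, h7⟩)
          exact ⟨c, mem_union_right _ (mem_union_right _ hc)⟩
      · obtain ⟨c, hc⟩ := hM2.cover v (mem_filter.2 ⟨hv, h5⟩)
        exact ⟨c, mem_union_right _ (mem_union_left _ hc)⟩
    · rcases mem_union.1 hx with hx | hx
      · rcases mem_union.1 hy with hy | hy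
        · exact hMr x hx y hy hxy
        · rcases mem_union.1 hy with hy | hy
          · exact absurd hxy (r12 x hx y hy)
          · exact absurd hxy (r13 x hx y hy)
      · rcases mem_union.1 hx with hx | hx
        · rcases mem_union.1 hy with hy | hy
          · exact absurd hxy.symm (r12 y hy x hx)
          · rcases mem_union.1 hy with hy | hy
            · exact hM2.row x hx y hy hxy
            · exact absurd hxy (r23 x hx y hy)
        · rcases mem_union.1 hy with hy | hy
          · exact absurd hxy.symm (r13 y hy x hx)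
          · rcases mem_union.1 hy with hy | hy
            · exact absurd hxy.symm (r23 y hy x hx)
            · exact hM3.row x hx y hy hxy
    · rcases mem_union.1 hx with hx | hx
      · rcases mem_union.1 hy with hy | hy
        · exact hMc x hx y hy hxy
        · rcases mem_union.1 hy with hy | hy
          · exact absurd hxy (c12 x hx y hy)
          · exact absurd hxy (c13 x hx y hy)
      · rcases mem_union.1 hx with hx | hx
        · rcases mem_union.1 hy with hy | hy
          · exact absurd hxy.symm (c12 y hy x hx)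
          · rcases mem_union.1 hy with hy | hy
            · exact hM2.col x hx y hy hxy
            · exact absurd hxy (c23 x hx y hy)
        · rcases mem_union.1 hy with hy | hy
          · exact absurd hxy.symm (c13 y hy x hx)
          · rcases mem_union.1 hy with hy | hy
            · exact absurd hxy.symm (c23 y hy x hx)
            · exact hM3.col x hx y hy hxy
  -- steps 2 and 3
  · obtain ⟨hMH, hMk, hMr, hMc⟩ := hM
    have hfst : (M.image Prod.fst).card = k := by
      rw [← hMk]
      exact card_image_of_injOn fun x hx y hy hxy => hMr x hx y hy hxy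
    have hsnd : (M.image Prod.snd).card ≤ k := by
      rw [← hMk]
      exact card_image_le
    have hsub : M.image Prod.fst ⊆ St S L C D := by
      intro v hv
      obtain ⟨x, hx, rfl⟩ := mem_image.1 hv
      have h5 := hMH hx
      rw [hHdef] at h5
      exact ((hmemF x).1 (mem_filter.1 h5).1).1
    have hXcard : (St S L C D \ M.image Prod.fst).card = (St S L C D).card - k := by
      rw [card_sdiff_of_subset hsub, hfst]
    have hXle : (St S L C D \ M.image Prod.fst).card ≤ (VP S L C D).card := by
      rw [hXcard]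
      omega
    have hXge : 998 * D ≤ 1000 * (St S L C D \ M.image Prod.fst).card := by
      rw [hXcard]
      omega
    obtain ⟨Y, hY, hYcard⟩ := exists_subset_card_eq hXle
    have hg := h2 V N (Sl S L C D) (fun v => (rare S L C D v \ T v) \ M.image Prod.snd) hN0
      (fun v hv => by
        have h5 : ¬ 1000 * (rare S L C D v).card < 3 * D := (mem_filter.1 hv).2
        have h6 := hT v (mem_filter.1 hv).1
        have h7 : (rare S L C D v).card ≤
            ((rare S L C D v \ T v) \ M.image Prod.snd).card + (T v).card +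
              (M.image Prod.snd).card := by
          have h8 := card_le_card_sdiff_add_card (t := T v) (s := rare S L C D v)
          have h9 := card_le_card_sdiff_add_card (t := M.image Prod.snd)
            (s := rare S L C D v \ T v)
          omega
        change N + (Sl S L C D).card ≤ ((rare S L C D v \ T v) \ M.image Prod.snd).card
        omega)
    have hn := h4 V (St S L C D \ M.image Prod.fst) Y (fun v => (L v \ C) \ T v) hYcard
      (fun v hv => by
        have hv1 := (mem_sdiff.1 hv).1
        have h5 := mem_filter.1 hv1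
        have h5' : 1000 * (rare S L C D v).card < 3 * D := h5.2
        have h6 : (Y \ ((L v \ C) \ T v)).card ≤ (VP S L C D \ L v).card + (T v).card := by
          refine (card_le_card fun c hc => ?_).trans (card_union_le _ _)
          obtain ⟨h7, h8⟩ := mem_sdiff.1 hc
          have h9 := mem_sdiff.1 (hY h7)
          by_cases h10 : c ∈ L v
          · by_cases h11 : c ∈ T v
            · exact mem_union_right _ h11
            · exact absurd (mem_sdiff.2 ⟨mem_sdiff.2 ⟨h10, h9.2⟩, h11⟩) h8
          · exact mem_union_left _ (mem_sdiff.2 ⟨hY h7, h10⟩)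
        have h7 := miss_le (S := S) (L := L) (C := C) (D := D) v
        rw [hL v h5.1] at h7
        have h8 := hT v h5.1
        change 50 * (Y \ ((L v \ C) \ T v)).card ≤ (St S L C D \ M.image Prod.fst).card
        omega)
      (fun c hc => by
        have h5 := mem_sdiff.1 (hY hc)
        have h6 := (mem_popular.1 h5.1).2
        have hcolF : Col S L c ∈ family S L D := by
          unfold family
          exact mem_union_right _ (mem_image.2 ⟨c, h5.1, rfl⟩)
        have h7 := hgood _ hcolF
        have h8 : (Col S L c).card = (S.filter (fun v => c ∈ L v)).card := by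
          unfold Col
          exact card_image_of_injective _ fun a b hab => (Prod.mk.inj hab).1
        have h9 : ((St S L C D \ M.image Prod.fst).filter
            (fun v => c ∉ (L v \ C) \ T v)).card ≤ (S.filter (fun v => ¬ c ∈ L v)).card +
              ((Col S L c).filter (fun x => x.2 ∈ T x.1)).card := by
          have h10 : (St S L C D \ M.image Prod.fst).filter (fun v => c ∉ (L v \ C) \ T v) ⊆
              (S.filter (fun v => ¬ c ∈ L v)) ∪
                (((Col S L c).filter (fun x => x.2 ∈ T x.1)).image Prod.fst) := by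
            intro v hv
            obtain ⟨h11, h12⟩ := mem_filter.1 hv
            have h13 : v ∈ S := (mem_filter.1 (mem_sdiff.1 h11).1).1
            by_cases h14 : c ∈ L v
            · by_cases h15 : c ∈ T v
              · refine mem_union_right _ (mem_image.2 ⟨(v, c), mem_filter.2 ⟨?_, h15⟩, rfl⟩)
                exact mem_image.2 ⟨v, mem_filter.2 ⟨h13, h14⟩, rfl⟩
              · exact absurd (mem_sdiff.2 ⟨mem_sdiff.2 ⟨h14, h5.2⟩, h15⟩) h12
            · exact mem_union_left _ (mem_filter.2 ⟨h13, h14⟩)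
          exact (card_le_card h10).trans ((card_union_le _ _).trans
            (Nat.add_le_add_left card_image_le _))
        have h10 : (S.filter (fun v => c ∈ L v)).card + (S.filter (fun v => ¬ c ∈ L v)).card =
            S.card := card_filter_add_card_filter_not _
        change 50 * ((St S L C D \ M.image Prod.fst).filter
            (fun v => c ∉ (L v \ C) \ T v)).card ≤ (St S L C D \ M.image Prod.fst).card
        omega)
    have hX0 : (0 : ℝ) < ((St S L C D \ M.image Prod.fst).card : ℝ) := by
      have h5 : 0 < (St S L C D \ M.image Prod.fst).card := by omega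
      exact_mod_cast h5
    have hc2 := h1 (V × ℕ) (1 / (N : ℝ)) (100 / ((St S L C D \ M.image Prod.fst).card : ℝ)) _
      (fun _ K => IsStar (St S L C D \ M.image Prod.fst) (fun v => ((L v \ C) \ T v) ∩ Y) K)
      (by positivity) (by positivity) hg (fun _ _ => hn)
    refine hc2.mono (by positivity) ?_ ?_
    · have h5 : 100 / ((St S L C D \ M.image Prod.fst).card : ℝ) ≤ 1 / (N : ℝ) := by
        rw [div_le_div_iff₀ hX0 (by exact_mod_cast hN0)]
        have h6 : 100 * N ≤ 1 * (St S L C D \ M.image Prod.fst).card := by omega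
        exact_mod_cast h6
      have h6 : (2 : ℝ) / N = 1 / N + 1 / N := by ring
      rw [h6]
      linarith
    · rintro K ⟨M2, M3, hM2, hM3, rfl⟩
      exact ⟨M2, M3, hM2, ⟨Y, hY, hM3⟩, rfl⟩

end Pool.Agent.H93.LE
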