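import Pool.Agent.H81.LE.StmTwo

/-!
# Project LE: light edges
-/

set_option autoImplicit false
set_option linter.unusedSectionVars false
set_option linter.unusedVariables false

namespace Pool.Agent.H93.LE

open Pool.Agent.H81.LE

variable {V : Type}

/-- an edge which is not heavy meets fewer than `D` other edges -/
theorem light_card [Fintype V] (G : SimpleGraph V) (D : ℕ) (e : G.edgeSet)
    (he : (e : Sym2 V) ∉ (heavy G D).edgeSet) (f : G.edgeSet → ℕ) :
    {c | ∃ e', G.lineGraph.Adj e e' ∧ f e' = c}.ncard < D := by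
  classical
  obtain ⟨s, hs⟩ := e
  induction s using Sym2.ind with
  | _ u v =>
  have huv : G.Adj u v := hs
  have hdeg : (G.neighborSet u).ncard + (G.neighborSet v).ncard ≤ D + 1 := by
    by_contra h
    exact he (show (heavy G D).Adj u v from ⟨huv, by omega⟩)
  have hu1 : ((G.neighborSet u) \ {v}).ncard = (G.neighborSet u).ncard - 1 :=
    Set.ncard_sdiff_singleton_of_mem huv
  have hv1 : ((G.neighborSet v) \ {u}).ncard = (G.neighborSet v).ncard - 1 :=
    Set.ncard_sdiff_singleton_of_mem huv.symm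
  have hu0 : 0 < (G.neighborSet u).ncard := (Set.ncard_pos (Set.toFinite _)).2 ⟨v, huv⟩
  have hv0 : 0 < (G.neighborSet v).ncard := (Set.ncard_pos (Set.toFinite _)).2 ⟨u, huv.symm⟩
  let g : Sym2 V → ℕ := fun s => if h : s ∈ G.edgeSet then f ⟨s, h⟩ else 0
  have hsub : {c | ∃ e', G.lineGraph.Adj ⟨s(u, v), hs⟩ e' ∧ f e' = c} ⊆
      ((fun w => g s(u, w)) '' ((G.neighborSet u) \ {v})) ∪
        ((fun w => g s(v, w)) '' ((G.neighborSet v) \ {u})) := by
    rintro c ⟨⟨s', hs'⟩, ⟨hne, x, hx, hx'⟩, rfl⟩
    have hne' : s(u, v) ≠ s' := fun h => hne (Subtype.ext h)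
    have hx1 : x ∈ s(u, v) := hx
    have hx2 : x ∈ s' := hx'
    obtain ⟨w, rfl⟩ := hx2
    have hg : g s(x, w) = f ⟨s(x, w), hs'⟩ := by
      change (if h : s(x, w) ∈ G.edgeSet then f ⟨s(x, w), h⟩ else 0) = _
      rw [dif_pos hs']
    have hadj : G.Adj x w := hs'
    rcases Sym2.mem_iff.1 hx1 with rfl | rfl
    · refine Or.inl ⟨w, ⟨hadj, fun h => hne' ?_⟩, hg⟩
      rw [Set.mem_singleton_iff] at h
      rw [h]
    · refine Or.inr ⟨w, ⟨hadj, fun h => hne' ?_⟩, hg⟩
      rw [Set.mem_singleton_iff] at h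
      rw [h, Sym2.eq_swap]
  have h1 := Set.ncard_le_ncard hsub (Set.toFinite _)
  have h2 := Set.ncard_union_le ((fun w => g s(u, w)) '' ((G.neighborSet u) \ {v}))
    ((fun w => g s(v, w)) '' ((G.neighborSet v) \ {u}))
  have h3 := Set.ncard_image_le (f := fun w => g s(u, w))
    (Set.toFinite ((G.neighborSet u) \ {v}))
  have h4 := Set.ncard_image_le (f := fun w => g s(v, w))
    (Set.toFinite ((G.neighborSet v) \ {u}))
  omega

/-- **Light edges.** -/
theorem t_light : S_light := by
  classical
  intro V _ G D hH L hL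
  have hsub : ∀ s, s ∈ (heavy G D).edgeSet → s ∈ G.edgeSet := by
    intro s
    induction s using Sym2.ind with
    | _ u v => exact fun h => (show (heavy G D).Adj u v from h).1
  obtain ⟨f₀, hf1, hf2⟩ := hH (fun e => L ⟨e.1, hsub e.1 e.2⟩) fun e => hL _
  have key : ∀ T : Finset G.edgeSet, ∃ f : G.edgeSet → ℕ,
      (∀ e : G.edgeSet, ((e : Sym2 V) ∈ (heavy G D).edgeSet ∨ e ∈ T) → f e ∈ L e) ∧
      ∀ e e' : G.edgeSet, ((e : Sym2 V) ∈ (heavy G D).edgeSet ∨ e ∈ T) →
        ((e' : Sym2 V) ∈ (heavy G D).edgeSet ∨ e' ∈ T) → G.lineGraph.Adj e e' → f e ≠ f e' := by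
    intro T
    induction T using Finset.induction_on with
    | empty =>
      refine ⟨fun e => if h : (e : Sym2 V) ∈ (heavy G D).edgeSet then f₀ ⟨e.1, h⟩ else 0,
        fun e he => ?_, fun e e' he he' hadj => ?_⟩
      · have h : (e : Sym2 V) ∈ (heavy G D).edgeSet := he.resolve_right (Finset.notMem_empty _)
        beta_reduce
        rw [dif_pos h]
        exact hf1 ⟨e.1, h⟩
      · have h : (e : Sym2 V) ∈ (heavy G D).edgeSet := he.resolve_right (Finset.notMem_empty _)
        have h' : (e' : Sym2 V) ∈ (heavy G D).edgeSet := he'.resolve_right (Finset.notMem_empty _)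
        beta_reduce
        rw [dif_pos h, dif_pos h']
        refine hf2 ⟨e.1, h⟩ ⟨e'.1, h'⟩ ⟨fun h1 => hadj.1 ?_, hadj.2⟩
        exact Subtype.ext (congrArg (fun s => s.1) h1)
    | insert e₀ T _ ih =>
      obtain ⟨f, h1, h2⟩ := ih
      by_cases hh : (e₀ : Sym2 V) ∈ (heavy G D).edgeSet
      · have h3 : ∀ e : G.edgeSet, ((e : Sym2 V) ∈ (heavy G D).edgeSet ∨ e ∈ insert e₀ T) →
            ((e : Sym2 V) ∈ (heavy G D).edgeSet ∨ e ∈ T) := by
          rintro e (h | h)
          · exact Or.inl h
          · rcases Finset.mem_insert.1 h with rfl | h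
            · exact Or.inl hh
            · exact Or.inr h
        exact ⟨f, fun e he => h1 e (h3 e he), fun e e' he he' => h2 e e' (h3 e he) (h3 e' he')⟩
      · have h3 := light_card G D e₀ hh f
        have h4 : {c | ∃ e', G.lineGraph.Adj e₀ e' ∧ f e' = c}.ncard <
            ((L e₀ : Finset ℕ) : Set ℕ).ncard := by
          rw [Set.ncard_coe_finset]
          exact lt_of_lt_of_le h3 (hL e₀)
        have hfin : {c | ∃ e', G.lineGraph.Adj e₀ e' ∧ f e' = c}.Finite := by
          refine (Set.finite_range f).subset ?_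
          rintro _ ⟨e', _, rfl⟩
          exact ⟨e', rfl⟩
        obtain ⟨c, hc, hc'⟩ := Set.exists_mem_notMem_of_ncard_lt_ncard h4 hfin
        have h5 : ∀ e : G.edgeSet, e ≠ e₀ → ((e : Sym2 V) ∈ (heavy G D).edgeSet ∨ e ∈ insert e₀ T) →
            ((e : Sym2 V) ∈ (heavy G D).edgeSet ∨ e ∈ T) := by
          rintro e hne (h | h)
          · exact Or.inl h
          · exact Or.inr ((Finset.mem_insert.1 h).resolve_left hne)
        refine ⟨Function.update f e₀ c, fun e he => ?_, fun e e' he he' hadj => ?_⟩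
        · by_cases h : e = e₀
          · rw [h, Function.update_self]
            exact hc
          · rw [Function.update_of_ne h]
            exact h1 e (h5 e h he)
        · by_cases h : e = e₀
          · have h' : e' ≠ e₀ := fun h' => hadj.1 (h.trans h'.symm)
            rw [h, Function.update_self, Function.update_of_ne h']
            intro h6
            exact hc' ⟨e', h ▸ hadj, h6.symm⟩
          · by_cases h' : e' = e₀
            · rw [h', Function.update_self, Function.update_of_ne h]
              intro h6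
              exact hc' ⟨e, (h' ▸ hadj).symm, h6⟩
            · rw [Function.update_of_ne h, Function.update_of_ne h']
              exact h2 e e' (h5 e h he) (h5 e' h' he') hadj
  obtain ⟨f, h1, h2⟩ := key Finset.univ
  exact ⟨f, fun e => h1 e (Or.inr (Finset.mem_univ e)), fun e e' =>
    h2 e e' (Or.inr (Finset.mem_univ e)) (Or.inr (Finset.mem_univ e'))⟩

end Pool.Agent.H93.LE
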